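import Pool.Agent.U79.GZ.Stm
import Pool.Agent.Y703.CQ.Asy

/-!
# Project GZ (helper79), package ASY (helper978): the asymptotic analysis

A port of `Pool/Agent/U798/GD/ASY.lean` (helper798) and `Pool/Agent/U464/GY/ASY.lean` (helper464).
-/

set_option autoImplicit false
set_option linter.unusedVariables false

open scoped Classical
open Finset Filter

namespace Pool.Agent.U978.GZ

open Pool.Agent.Y703.CX (sm la jj XX eL zz kk S_SIE eL_tendsto logX_eq rpow_eL HH NN ev_eL one_le_exp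
  HH_ge HH_le HH_pos kk_ge kk_le X_pos one_add_log lin_le kap zz_ge zz_pos kap_nonneg kap_pow kap_le)
open Pool.Agent.Y703.CQ (nr Sml sml_of sml_add sml_rpow cmp)
open Pool.Agent.U115.GD (S_MER S_CHE)
open Pool.Agent.U79.GY (Cfg Ok Hc Sp In Cl SS da db dl s4 CntP)
open Pool.Agent.U79.GZ

/-- sets with many primes -/
theorem sml_many {G : Cfg} (hO : Ok G) {t : ℝ} (ht : t < 1) (h : CntP) : Sml t fun X => (((SS G X).filter fun S => kk X < S.card).card : ℝ) := by
  apply sml_of (C := 2) (a := 1) ht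
  filter_upwards [ev_eL 1] with X hX
  have h0 : 0 < eL X := by linarith
  have h1 := h.many G X (kk X) hO (X_pos h0)
  have h2 : Real.exp (2 * eL X) ≤ 2 ^ kk X := by
    have e : (2 : ℝ) ^ kk X = Real.exp (kk X * Real.log 2) := by
      rw [mul_comm, Real.exp_mul, Real.exp_log (by norm_num), Real.rpow_natCast]
    rw [e]
    apply Real.exp_le_exp.2
    have h3 := kk_ge X
    have h4 := Real.log_two_gt_d9
    nlinarith
  have hX0 : (0 : ℝ) ≤ X := Nat.cast_nonneg _
  have h5 : (((SS G X).filter fun S => kk X < S.card).card : ℝ) * Real.exp (2 * eL X) ≤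
      X * (2 * Real.exp (eL X)) := by
    calc _ ≤ (((SS G X).filter fun S => kk X < S.card).card : ℝ) * 2 ^ kk X := by gcongr
      _ ≤ X * (1 + Real.log X) := h1
      _ ≤ _ := mul_le_mul_of_nonneg_left (one_add_log h0) hX0
  have h6 : (2 : ℝ) * (X * Real.exp (-1 * eL X)) * Real.exp (2 * eL X) = X * (2 * Real.exp (eL X)) := by
    have e : Real.exp (-1 * eL X) * Real.exp (2 * eL X) = Real.exp (eL X) := by
      rw [← Real.exp_add]; congr 1; ring
    calc _ = 2 * X * (Real.exp (-1 * eL X) * Real.exp (2 * eL X)) := by ring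
      _ = _ := by rw [e]; ring
  rw [← h6] at h5
  exact le_of_mul_le_mul_right h5 (Real.exp_pos _)

/-- sets near the boundary -/
theorem sml_cut {G : Cfg} (hO : Ok G) {t : ℝ} (ht : t < 1) (h : CntP) : Sml t fun X => (((SS G X).filter fun S => S.card ≤ kk X ∧
    X < (∏ p ∈ sm (zz X) S, p) * ∏ p ∈ la (zz X) S, XX (HH X) (jj (HH X) p)).card : ℝ) := by
  apply sml_of (C := 2) (a := 1) ht
  have hlog : ∀ᶠ X : ℕ in atTop, Real.exp (eL X) ≤ X := by
    filter_upwards [ev_eL 1] with X hX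
    rw [← logX_eq (by linarith)]
    exact (Real.log_le_sub_one_of_pos (by exact_mod_cast X_pos (by linarith))).trans (by linarith)
  filter_upwards [ev_eL 1, lin_le (a := 1) (b := 11) (by norm_num) (by norm_num), hlog] with X hX h11 hl
  have h0 : 0 < eL X := by linarith
  have h1 := h.cut G X (zz X) (HH X) (kk X) hO (X_pos h0) (HH_pos h0)
  refine h1.trans ?_
  have hH := HH_ge h0
  have hHp : (0 : ℝ) < HH X := lt_of_lt_of_le (Real.exp_pos _) hH
  have hX0 : (0 : ℝ) ≤ X := Nat.cast_nonneg _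
  have h2 : (X : ℝ) * kk X / HH X ≤ X * Real.exp (-1 * eL X) := by
    rw [div_le_iff₀ hHp]
    calc (X : ℝ) * kk X ≤ X * Real.exp (eL X) := by
          have := kk_le hX
          rw [one_mul] at h11
          have : (kk X : ℝ) ≤ Real.exp (eL X) := by linarith
          gcongr
      _ ≤ X * (Real.exp (-1 * eL X) * Real.exp (3 * eL X)) := by
          rw [← Real.exp_add]
          apply mul_le_mul_of_nonneg_left _ hX0
          apply Real.exp_le_exp.2
          linarith
      _ ≤ X * Real.exp (-1 * eL X) * HH X := by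
          rw [mul_assoc]
          gcongr
  have h3 : (1 : ℝ) ≤ X * Real.exp (-1 * eL X) := by
    have e : Real.exp (eL X) * Real.exp (-1 * eL X) = 1 := by
      rw [← Real.exp_add]
      have : eL X + -1 * eL X = 0 := by ring
      rw [this, Real.exp_zero]
    calc (1 : ℝ) = Real.exp (eL X) * Real.exp (-1 * eL X) := e.symm
      _ ≤ X * Real.exp (-1 * eL X) := mul_le_mul_of_nonneg_right hl (Real.exp_pos _).le
  linarith

/-- sets with two primes in one block -/
theorem sml_coll {G : Cfg} (hO : Ok G) {t : ℝ} (ht : t < 1) (h : CntP) : Sml t fun X => (((SS G X).filter fun S =>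
    ¬ Set.InjOn (jj (HH X)) (la (zz X) S : Set ℕ)).card : ℝ) := by
  apply sml_of (C := 8) (a := 2) (by linarith)
  filter_upwards [ev_eL 1] with X hX
  have h0 : 0 < eL X := by linarith
  have h1 := h.coll G X (zz X) (HH X) hO (X_pos h0) (HH_pos h0)
  refine h1.trans ?_
  have hH := HH_ge h0
  have hHp : (0 : ℝ) < HH X := lt_of_lt_of_le (Real.exp_pos _) hH
  have hX0 : (0 : ℝ) ≤ X := Nat.cast_nonneg _
  rw [div_le_iff₀ hHp]
  calc 4 * (X : ℝ) * (1 + Real.log X) ≤ 4 * X * (2 * Real.exp (eL X)) := by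
        have := one_add_log h0
        gcongr
    _ = 8 * (X * (Real.exp (-2 * eL X) * Real.exp (3 * eL X))) := by
        rw [← Real.exp_add]
        have : -2 * eL X + 3 * eL X = eL X := by ring
        rw [this]
        ring
    _ ≤ 8 * (X * (Real.exp (-2 * eL X) * HH X)) := by gcongr
    _ = 8 * (X * Real.exp (-2 * eL X)) * HH X := by ring

/-- the main error term -/
theorem sml_main {C : ℝ} (hC : 1 ≤ C) (Q : ℕ) {t : ℝ} (ht : t < 1) :
    Sml t fun X => (((Q : ℝ) + 1) * (NN X + 1)) ^ kk X *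
    (3 ^ (3 * kk X ^ 2) * kap C X) * (X * (1 + Real.log X)) := by
  apply sml_of (C := 4 * C) (a := 1) ht
  filter_upwards [ev_eL 5500, ev_eL (4 * ((Q : ℝ) + 1))] with X hX hXQ
  set l := eL X with hl
  have h0 : 0 < eL X := by linarith
  have h1 : 1 ≤ eL X := by linarith
  have hX0 : (0 : ℝ) ≤ X := Nat.cast_nonneg _
  have hQ0 : (0 : ℝ) ≤ Q := Nat.cast_nonneg _
  have hN : ((Q : ℝ) + 1) * ((NN X : ℝ) + 1) ≤ Real.exp (5 * l) := by
    have h2 : (NN X : ℝ) ≤ HH X * Real.log X + 1 := by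
      unfold NN
      push_cast
      have := Nat.floor_le (a := (HH X : ℝ) * Real.log X)
        (mul_nonneg (Nat.cast_nonneg _) (Real.log_natCast_nonneg X))
      linarith
    have h3 : (HH X : ℝ) * Real.log X ≤ 2 * Real.exp (4 * l) := by
      rw [logX_eq h0]
      calc (HH X : ℝ) * Real.exp (eL X) ≤ 2 * Real.exp (3 * eL X) * Real.exp (eL X) :=
            mul_le_mul_of_nonneg_right (HH_le h0) (Real.exp_pos _).le
        _ = 2 * Real.exp (4 * l) := by
            rw [mul_assoc, ← Real.exp_add]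
            congr 2
            rw [hl]
            ring
    have h4 : 1 ≤ Real.exp (4 * l) := one_le_exp (by linarith)
    have h5 : 4 * ((Q : ℝ) + 1) ≤ Real.exp l := by
      have := Real.add_one_le_exp l
      linarith
    have h6 : Real.exp (5 * l) = Real.exp (4 * l) * Real.exp l := by
      rw [← Real.exp_add]; congr 1; ring
    rw [h6]
    have h7 : (NN X : ℝ) + 1 ≤ 4 * Real.exp (4 * l) := by linarith
    calc ((Q : ℝ) + 1) * ((NN X : ℝ) + 1) ≤ ((Q : ℝ) + 1) * (4 * Real.exp (4 * l)) := by gcongr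
      _ = Real.exp (4 * l) * (4 * ((Q : ℝ) + 1)) := by ring
      _ ≤ Real.exp (4 * l) * Real.exp l := by gcongr
  have hkk := kk_le h1
  have hkk0 : (0 : ℝ) ≤ kk X := Nat.cast_nonneg _
  have hA : (((Q : ℝ) + 1) * ((NN X : ℝ) + 1)) ^ kk X ≤ Real.exp (55 * l ^ 2) := by
    calc (((Q : ℝ) + 1) * ((NN X : ℝ) + 1)) ^ kk X ≤ (Real.exp (5 * l)) ^ kk X := by gcongr
      _ = Real.exp (kk X * (5 * l)) := (Real.exp_nat_mul _ _).symm
      _ ≤ Real.exp (55 * l ^ 2) := by
          apply Real.exp_le_exp.2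
          nlinarith
  have hB : (3 : ℝ) ^ (3 * kk X ^ 2) ≤ Real.exp (400 * l ^ 2) := by
    have e : (3 : ℝ) ^ (3 * kk X ^ 2) = Real.exp ((3 * (kk X : ℝ) ^ 2) * Real.log 3) := by
      rw [mul_comm (3 * (kk X : ℝ) ^ 2) (Real.log 3), Real.exp_mul, Real.exp_log (by norm_num)]
      rw [← Real.rpow_natCast]
      congr 1
      push_cast
      ring
    rw [e]
    apply Real.exp_le_exp.2
    have h2 : Real.log 3 ≤ 1.1 := by
      have h3 : (3 : ℝ) ≤ Real.exp 1.1 := by
        have h4 : (2.7182818283 : ℝ) < Real.exp 1 := Real.exp_one_gt_d9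
        have h5 : (1.105 : ℝ) ≤ Real.exp 0.1 := by
          have := Real.quadratic_le_exp_of_nonneg (x := 0.1) (by norm_num)
          norm_num at this ⊢
          linarith
        have h6 : Real.exp 1.1 = Real.exp 1 * Real.exp 0.1 := by
          rw [← Real.exp_add]; norm_num
        rw [h6]
        nlinarith
      calc Real.log 3 ≤ Real.log (Real.exp 1.1) := Real.log_le_log (by norm_num) h3
        _ = 1.1 := Real.log_exp _
    have h3 : (kk X : ℝ) ^ 2 ≤ 121 * l ^ 2 := by nlinarith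
    have h4 : 0 ≤ (kk X : ℝ) ^ 2 := sq_nonneg _
    nlinarith [sq_nonneg l]
  have hK := kap_le hC h1
  have hLg := one_add_log h0
  have hmain : (((Q : ℝ) + 1) * ((NN X : ℝ) + 1)) ^ kk X * (3 ^ (3 * kk X ^ 2) * kap C X) *
      (X * (1 + Real.log X)) ≤ Real.exp (55 * l ^ 2) * (Real.exp (400 * l ^ 2) *
        (2 * C * Real.exp (-l ^ 3 / 12))) * (X * (2 * Real.exp l)) := by
    have := kap_nonneg hC X
    have : 0 ≤ 1 + Real.log X := by
      have := Real.log_natCast_nonneg X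
      linarith
    gcongr
  refine hmain.trans ?_
  have e : Real.exp (55 * l ^ 2) * (Real.exp (400 * l ^ 2) *
        (2 * C * Real.exp (-l ^ 3 / 12))) * (X * (2 * Real.exp l)) =
      4 * C * (X * Real.exp (55 * l ^ 2 + 400 * l ^ 2 + -l ^ 3 / 12 + l)) := by
    rw [Real.exp_add, Real.exp_add, Real.exp_add]
    ring
  rw [e]
  have h9 : 55 * l ^ 2 + 400 * l ^ 2 + -l ^ 3 / 12 + l ≤ -1 * l := by
    have h10 : 5500 * l ^ 2 ≤ l ^ 3 := by
      have : l ^ 3 = l * l ^ 2 := by ring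
      rw [this]
      exact mul_le_mul_of_nonneg_right hX (sq_nonneg l)
    nlinarith
  have h11 := Real.exp_le_exp.2 h9
  have hC0 : (0 : ℝ) ≤ 4 * C := by linarith
  gcongr

/-- the sets outside the regular part -/
theorem out_sub (G : Cfg) (Z : Finset ℤ) (R : Finset ℕ) (X z H k V : ℕ) :
    SP G R X \ ((RR G R X z H k V).filter fun S => Nd G Z (sm z S) (la z S)) ⊆
      ((((((SS G X).filter fun S => k < S.card) ∪
      ((SS G X).filter fun S => S.card ≤ k ∧
        X < (∏ p ∈ sm z S, p) * ∏ p ∈ la z S, XX H (jj H p))) ∪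
      ((SS G X).filter fun S => ¬ Set.InjOn (jj H) (la z S : Set ℕ))) ∪
      ((SS G X).filter fun S => ((la z S).filter fun p => Hc G p ∧ p % 4 = 3).card ≤
        2 * (sm z S).card + V)) ∪
      ((SS G X).filter fun S => ∀ p ∈ la z S, Hc G p)) ∪
      ((SS G X).filter fun S => S.card ≤ k ∧ ¬ Nd G Z (sm z S) (la z S)) := by
  intro S hS
  rw [Finset.mem_sdiff, Finset.mem_filter] at hS
  obtain ⟨h1', h2⟩ := hS
  have h1 : S ∈ SS G X := (Finset.mem_filter.1 h1').1
  simp only [mem_union, mem_filter]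
  by_contra hc
  push Not at hc
  obtain ⟨⟨⟨⟨⟨c1, c2⟩, c3⟩, c4⟩, c4'⟩, c5⟩ := hc
  have d1 : S.card ≤ k := c1 h1
  have d2 := c2 h1 d1
  have d3 := c3 h1
  have d4 := c4 h1
  have d4' := c4' h1
  have d5 := c5 h1 d1
  apply h2
  refine ⟨?_, d5⟩
  unfold RR
  rw [mem_filter]
  exact ⟨h1', d3, d1, d2, d4, d4'⟩

theorem dl_pos {G : Cfg} (hO : Ok G) : 0 < dl G := by
  have h1 : (0 : ℝ) < (Nat.totient G.Q : ℝ) := by exact_mod_cast Nat.totient_pos.2 hO.q0
  have h2 : (0 : ℝ) < (G.A.card : ℝ) := by exact_mod_cast hO.hAn.card_pos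
  have h3 : (0 : ℝ) < (G.B.card : ℝ) := by exact_mod_cast hO.hBn.card_pos
  unfold dl da db
  positivity

theorem eta_mem : eta ∈ Set.Icc (0 : ℝ) 1 := by
  have hf : ∀ i : ℕ, (1 - (1 / 2 : ℝ) ^ (i + 1)) ∈ Set.Icc (0 : ℝ) 1 := by
    intro i
    have h1 : (0 : ℝ) ≤ (1 / 2 : ℝ) ^ (i + 1) := by positivity
    have h2 : (1 / 2 : ℝ) ^ (i + 1) ≤ 1 := pow_le_one₀ (by norm_num) (by norm_num)
    exact ⟨by linarith, by linarith⟩
  unfold eta
  by_cases h : Multipliable fun i : ℕ => (1 - (1 / 2 : ℝ) ^ (i + 1))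
  · refine isClosed_Icc.mem_of_tendsto h.hasProd (Eventually.of_forall fun s => ?_)
    exact ⟨Finset.prod_nonneg fun i _ => (hf i).1,
      Finset.prod_le_one (fun i _ => (hf i).1) fun i _ => (hf i).2⟩
  · rw [tprod_eq_one_of_not_multipliable h]
    exact ⟨by norm_num, le_rfl⟩

theorem t_ASY : S_ASY := by
  intro hkeyc hC hS hB hF hF' hM hCh hLo G γ Z f R hO hGa hHal hr hR
  obtain ⟨C, hC1, hkey⟩ := hkeyc
  obtain ⟨dB, CB, XB, hdB, hbad⟩ := hB hS hM G Z hO hHal
  obtain ⟨dI, CI, XI, hdI, hfew'⟩ := hF' hS hM G hO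
  obtain ⟨c, X₀, hc, hlow⟩ := hLo hM hCh G R hO hR
  have hdp := dl_pos hO
  rw [Metric.tendsto_nhds]
  intro ε hε
  obtain ⟨K, hK⟩ := exists_pow_lt_of_lt_one (show (0 : ℝ) < ε / 16 by linarith)
    (show (1 / 2 : ℝ) < 1 by norm_num)
  set A : ℝ := 2 ^ ((K + 2) ^ 2 + 2) * (1 + 2 ^ G.Q) with hA
  have hA0 : 0 < A := by positivity
  obtain ⟨V, hV⟩ := exists_pow_lt_of_lt_one (show (0 : ℝ) < ε / (4 * A) by positivity)
    (show (1 / 2 : ℝ) < 1 by norm_num)
  have hM0 : 4 * (1 / 2 : ℝ) ^ K + 2 ^ ((K + 2) ^ 2 + 2) * ((1 + 2 ^ G.Q) * (1 / 2 : ℝ) ^ V) ≤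
      ε / 2 := by
    have g1 : A * (1 / 2 : ℝ) ^ V ≤ ε / 4 := by
      have g2 := mul_le_mul_of_nonneg_left hV.le hA0.le
      have g3 : A * (ε / (4 * A)) = ε / 4 := by field_simp
      linarith
    have g4 : 2 ^ ((K + 2) ^ 2 + 2) * ((1 + 2 ^ G.Q) * (1 / 2 : ℝ) ^ V) = A * (1 / 2 : ℝ) ^ V := by
      rw [hA]
      ring
    rw [g4]
    linarith
  set M : ℝ := 4 * (1 / 2 : ℝ) ^ K + 2 ^ ((K + 2) ^ 2 + 2) * ((1 + 2 ^ G.Q) * (1 / 2 : ℝ) ^ V)
    with hMdef
  have hMnn : 0 ≤ M := by positivity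
  obtain ⟨dF, CF, XF, hdF, hfew⟩ := hF hS hM G V hO hr
  have s1 := sml_many hO (t := 1 - dl G) (by linarith) hC
  have s2 := sml_cut hO (t := 1 - dl G) (by linarith) hC
  have s3 := sml_coll hO (t := 1 - dl G) (by linarith) hC
  have s4 := sml_rpow (t := 1 - dl G) (by linarith) hfew
  have s4' := sml_rpow (t := 1 - dl G) (by linarith) hfew'
  have s5 := sml_rpow (t := 1 - dl G) (by linarith) hbad
  have s6 := sml_main hC1 G.Q (t := 1 - dl G) (by linarith)
  have s := sml_add (sml_add (sml_add (sml_add (sml_add (sml_add s1 s2) s3) s4) s4') s5) s6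
  have hδ : (0 : ℝ) < c * ε / 4 := by positivity
  filter_upwards [s (c * ε / 4) hδ, ev_eL 1, eventually_ge_atTop X₀] with X hX hl hX0
  have hl0 : 0 < eL X := by linarith
  have hlo := hlow X hX0
  have e00 : (-1 + dl G : ℝ) = -(1 - dl G) := by ring
  rw [e00, rpow_eL hl0] at hlo
  have hXp := X_pos hl0
  have hXp' : (0 : ℝ) < X := by exact_mod_cast hXp
  have hSpos : (0 : ℝ) < ((SP G R X).card : ℝ) := by
    refine lt_of_lt_of_le ?_ hlo
    positivity
  have hN : (HH X : ℝ) * Real.log X < NN X := by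
    unfold NN
    push_cast
    exact Nat.lt_floor_add_one _
  have hmain := hkey G γ Z f R K X (zz X) (HH X) (kk X) V (NN X) (kap C X) hO hGa hXp
    (HH_pos hl0) (zz_pos hl) (kap_nonneg hC1 X) (kap_pow hC1 hl) hN
  set T := (RR G R X (zz X) (HH X) (kk X) V).filter fun S => Nd G Z (sm (zz X) S) (la (zz X) S)
    with hT
  have hTG : (RR G R X (zz X) (HH X) (kk X) V).filter
      (fun S => Nd G Z (sm (zz X) S) (la (zz X) S) ∧ Gd G γ f S) = T.filter (Gd G γ f) := by
    rw [hT, filter_filter]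
  rw [hTG] at hmain
  have hTS : T ⊆ SP G R X := (filter_subset _ _).trans (filter_subset _ _)
  have hRS : ((RR G R X (zz X) (HH X) (kk X) V).card : ℝ) ≤ ((SP G R X).card : ℝ) := by
    exact_mod_cast card_le_card (filter_subset _ _)
  have hcmp := cmp (Gd G γ f) T (SP G R X) hTS eta eta_mem.1 eta_mem.2
  have hout : ((SP G R X \ T).card : ℝ) ≤
      (((((SS G X).filter fun S => kk X < S.card).card : ℝ) +
      (((SS G X).filter fun S => S.card ≤ kk X ∧
        X < (∏ p ∈ sm (zz X) S, p) * ∏ p ∈ la (zz X) S, XX (HH X) (jj (HH X) p)).card : ℝ) +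
      (((SS G X).filter fun S => ¬ Set.InjOn (jj (HH X)) (la (zz X) S : Set ℕ)).card : ℝ) +
      (((SS G X).filter fun S => ((la (zz X) S).filter fun p => Hc G p ∧ p % 4 = 3).card ≤
        2 * (sm (zz X) S).card + V).card : ℝ)) +
      (((SS G X).filter fun S => ∀ p ∈ la (zz X) S, Hc G p).card : ℝ)) +
      (((SS G X).filter fun S => S.card ≤ kk X ∧ ¬ Nd G Z (sm (zz X) S) (la (zz X) S)).card : ℝ) := by
    have g := card_le_card (out_sub G Z R X (zz X) (HH X) (kk X) V)
    rw [← hT] at g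
    have g2 := (g.trans (card_union_le _ _)).trans (Nat.add_le_add_right ((card_union_le _ _).trans
      (Nat.add_le_add_right ((card_union_le _ _).trans
      (Nat.add_le_add_right ((card_union_le _ _).trans
      (Nat.add_le_add_right (card_union_le _ _) _)) _)) _)) _)
    exact_mod_cast g2
  have htot : |(((SP G R X).filter (Gd G γ f)).card : ℝ) - eta * ((SP G R X).card : ℝ)| ≤
      M * ((SP G R X).card : ℝ) +
        c * ε / 4 * (X * Real.exp (-(1 - dl G) * eL X)) := by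
    have g1 : M * ((RR G R X (zz X) (HH X) (kk X) V).card : ℝ) ≤
        M * ((SP G R X).card : ℝ) := mul_le_mul_of_nonneg_left hRS hMnn
    linarith
  rw [Real.dist_eq]
  have e3 : (((SP G R X).filter fun S => Gd G γ f S).card : ℝ) / ((SP G R X).card : ℝ) - eta =
      ((((SP G R X).filter (Gd G γ f)).card : ℝ) - eta * ((SP G R X).card : ℝ)) /
        ((SP G R X).card : ℝ) := by
    field_simp
  rw [e3, abs_div, abs_of_pos hSpos, div_lt_iff₀ hSpos]
  refine lt_of_le_of_lt htot ?_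
  have g2 : c * ε / 4 * (X * Real.exp (-(1 - dl G) * eL X)) ≤ ε / 4 * ((SP G R X).card : ℝ) := by
    calc c * ε / 4 * (X * Real.exp (-(1 - dl G) * eL X)) =
          ε / 4 * (c * X * Real.exp (-(1 - dl G) * eL X)) := by ring
      _ ≤ _ := mul_le_mul_of_nonneg_left hlo (by linarith)
  have g3 : M * ((SP G R X).card : ℝ) ≤ ε / 2 * ((SP G R X).card : ℝ) := by
    gcongr
  have g4 : 0 < ε * ((SP G R X).card : ℝ) := by positivity
  linarith

end Pool.Agent.U978.GZ
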